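import Pool.Agent.Q26.KF.Defs
import Pool.Agent.H447R3.KuB

/-!
# The Kunneth components in families
-/

open CategoryTheory AlgebraicGeometry

universe u v u₀ v₀

namespace Pool.Agent.Q26.KF

open Pool.Agent.H914 Pool.Agent.H914.VarClass Pool.Agent.H914.VarClass.Obj
  Pool.Agent.H914.WeilCohomology Pool.Agent.H447

section Lin

variable {K : Type*} [Field K] [CharZero K] {H : Type*} [AddCommGroup H] [Module K H]
  [Module.Finite K H] {M N : Type*} [AddCommGroup M] [Module ℚ M] [AddCommGroup N] [Module ℚ N]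

/-- duality for rational intersection numbers -/
theorem exists_eq_of_orth (b : H →ₗ[K] H →ₗ[K] K) (f : N → H) (g : M → H)
    (β : N →ₗ[ℚ] M →ₗ[ℚ] ℚ) (hβ : ∀ z c, ((β z c : ℚ) : K) = b (f z) (g c)) (φ : M →ₗ[ℚ] ℚ)
    (h : ∀ c, (∀ z, β z c = 0) → φ c = 0) : ∃ z, β z = φ := by
  classical
  obtain ⟨s, hs, hspan, hli⟩ := exists_linearIndependent K (Set.range g)
  have hsf : Finite s := hli.setFinite
  have hch : ∀ x : s, ∃ c : M, g c = x := fun x => hs x.2
  choose γ hγ using hch
  -- evaluation at the elements `γ x`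
  let E : Module.Dual ℚ M →ₗ[ℚ] (s → ℚ) := LinearMap.pi fun x => LinearMap.applyₗ (γ x)
  have hinj : Function.Injective (E ∘ₗ (LinearMap.range β).subtype) := by
    rw [← LinearMap.ker_eq_bot, LinearMap.ker_eq_bot']
    rintro ⟨_, z, rfl⟩ hz
    have h1 : ∀ x : s, β z (γ x) = 0 := fun x => congrFun hz x
    apply Subtype.ext
    apply LinearMap.ext
    intro c
    change β z c = 0
    have h2 : g c ∈ Submodule.span K s := by
      rw [hspan]
      exact Submodule.subset_span ⟨c, rfl⟩
    have h3 : ∀ y ∈ Submodule.span K s, b (f z) y = 0 := by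
      intro y hy
      induction hy using Submodule.span_induction with
      | mem x hx =>
        have h9 : b (f z) (g (γ ⟨x, hx⟩)) = 0 := by rw [← hβ, h1, Rat.cast_zero]
        rwa [hγ] at h9
      | zero => rw [map_zero]
      | add x y _ _ hx hy => rw [map_add, hx, hy, add_zero]
      | smul r x _ hx => rw [map_smul, hx, smul_zero]
    have h4 := h3 _ h2
    rw [← hβ] at h4
    exact_mod_cast h4
  have hfd : Module.Finite ℚ (LinearMap.range β) := Module.Finite.of_injective _ hinj
  obtain ⟨t, ht⟩ := (Module.Finite.iff_fg.1 hfd : (LinearMap.range β).FG)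
  have h5 : φ ∈ Submodule.span ℚ (Set.range (fun x : t => (x : Module.Dual ℚ M))) := by
    apply mem_span_of_iInf_ker_le_ker
    intro c hc
    rw [LinearMap.mem_ker]
    apply h
    intro z
    have h6 : β z ∈ Submodule.span ℚ (t : Set (Module.Dual ℚ M)) := by
      rw [ht]
      exact ⟨z, rfl⟩
    have h7 : ∀ ψ ∈ Submodule.span ℚ (t : Set (Module.Dual ℚ M)), ψ c = 0 := by
      intro ψ hψ
      induction hψ using Submodule.span_induction with
      | mem x hx =>
        have := (Submodule.mem_iInf _).1 hc ⟨x, hx⟩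
        exact this
      | zero => rfl
      | add x y _ _ hx hy => rw [LinearMap.add_apply, hx, hy, add_zero]
      | smul r x _ hx => rw [LinearMap.smul_apply, hx, smul_zero]
    exact h7 _ h6
  have h8 : Set.range (fun x : t => (x : Module.Dual ℚ M)) = (t : Set (Module.Dual ℚ M)) := by
    ext y
    simp
  rw [h8, ht] at h5
  exact h5

end Lin

section Poly

variable {K L A B : Type*} [Field K] [CharZero K] [Field L] [CharZero L] [AddCommGroup A]
  [Module K A] [AddCommGroup B] [Module L B]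

theorem Matches.ev {s : K ≃+* L} {e : A ≃+ B} (hs : ∀ (r : K) (a : A), e (r • a) = s r • e a)
    {t : Module.End K A} {T : Module.End L B} (h : Matches e t T) (g : Polynomial ℚ) :
    Matches e (Pool.Agent.H914.ev t g) (Pool.Agent.H914.ev T g) := by
  have hpow : ∀ (m : ℕ) (a : A), e ((t ^ m) a) = (T ^ m) (e a) := by
    intro m
    induction m with
    | zero => intro a; simp
    | succ m ih =>
      intro a
      rw [pow_succ, pow_succ, Module.End.mul_apply, Module.End.mul_apply, ih, h]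
  induction g using Polynomial.induction_on' with
  | add p q hp hq =>
    intro a
    rw [map_add, map_add, LinearMap.add_apply, LinearMap.add_apply, map_add, hp, hq]
  | monomial m c =>
    intro a
    rw [← Polynomial.C_mul_X_pow_eq_monomial, map_mul, map_mul, map_pow, map_pow, ev_X, ev_X, ev_C,
      ev_C, smul_mul_assoc, smul_mul_assoc, one_mul, one_mul, LinearMap.smul_apply,
      LinearMap.smul_apply, hs, map_ratCast, hpow]

end Poly

section Num

variable {K : Type*} [Field K] [CharZero K] {V : Type*} [AddCommGroup V] [Module K V]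
  [Module.Finite K V] {gr : ℕ → Submodule K V} {R : ℤ → Module.End K V → Prop}

/-- A projector onto a graded piece is a polynomial in each operator numerically equivalent to
it. -/
theorem poly_of_num (hR : OpAlg gr R) (h : DirectSum.IsInternal gr) (hpar : R 0 (par h))
    {T : Module.End K V} (hT : R 0 T) {i : ℕ} (hp : R 0 (proj h i)) (hnum : ∀ y, R 0 y →
      LinearMap.trace K V (par h * (T * y)) = LinearMap.trace K V (par h * (proj h i * y))) :
    ∃ g : Polynomial ℚ, proj h i = ev T g := by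
  have hTh : IsHom gr 0 T := by simpa using hR.hom hT
  have hTk : ∀ k : ℕ, R 0 (T ^ k) := fun k => hR.cast (hR.pow hT k) (by simp)
  have hc : ∀ c : ℕ → K, Commute T (scal h c) := by
    intro c
    have := hTh.scal_comm h (fun i => if 0 ≤ i then c i.toNat else 0)
      (fun i => if 0 ≤ i then c i.toNat else 0) (fun i => by rw [add_zero])
    simp only [Int.natCast_nonneg, if_true, Int.toNat_natCast] at this
    exact this.symm
  have hcomm : Commute T (proj h i) := hc _
  have hcommp : Commute T (par h) := hc _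
  have hpp : proj h i * par h = par h * proj h i := by
    rw [par, proj, scal_mul, scal_mul]
    congr 1
    funext j
    rw [mul_comm]
  -- the traces
  have key : ∀ y, R 0 y → LinearMap.trace K V (T * y) = LinearMap.trace K V (proj h i * y) := by
    intro y hy
    have h1 := hnum (par h * y) (hR.cast (hR.mul hpar hy) (by ring))
    have e1 : par h * (T * (par h * y)) = T * y := by
      rw [← mul_assoc T, hcommp.eq, mul_assoc, ← mul_assoc, par_mul_par, one_mul]
    have e2 : par h * (proj h i * (par h * y)) = proj h i * y := by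
      rw [← mul_assoc (proj h i), hpp, mul_assoc, ← mul_assoc, par_mul_par, one_mul]
    rw [e1, e2] at h1
    exact h1
  refine exists_poly_of_proj (p := proj h i) (ε := 1) (σ := 1) (proj_mul_proj h i) hcomm
    (one_mul _) (by rw [one_mul, one_smul]) one_ne_zero ?_ ?_
  · intro k
    rw [one_mul, one_mul, pow_succ', key _ (hTk k)]
  · intro k hk
    obtain ⟨k, rfl⟩ : ∃ k', k = k' + 1 := ⟨k - 1, by omega⟩
    rw [one_mul, one_mul, pow_succ', key _ (hTk _), pow_succ', key _ (hTk _), ← mul_assoc,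
      ← hcomm.eq, mul_assoc, key _ (hR.cast (hR.mul hp (hTk k)) (by ring)), ← mul_assoc,
      proj_mul_proj]

end Num

section Cyc

variable {k : Type u} [Field k] {𝒱 : VarClass k} {ops : CycleOps 𝒱}
  {W : WeilCohomology.{u, v} ops} {X Y Z : 𝒱.Obj}

theorem cl_act (γ : (Y.prod Z).Cycles) (z : Y.Cycles) :
    W.cl Z (act ops γ z) = W.corr (W.cl _ γ) (W.cl Y z) := by
  rw [act, W.cl_push, W.cl_mul, W.cl_pull, corr_apply]

theorem act_mem {γ : (Y.prod Z).Cycles} (hγ : (Y.prod Z).IsCyc Y.dim γ) {p : ℕ} {z : Y.Cycles}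
    (hz : Y.IsCyc p z) : Z.IsCyc p (act ops γ z) := by
  refine ops.push_mem (snd Y Z) (ops.mul_mem hγ (ops.pull_mem (fst Y Z) hz)) ?_
  rw [dim_prod]
  ring

theorem coact_mem {γ : (Y.prod Z).Cycles} (hγ : (Y.prod Z).IsCyc Y.dim γ) {p q : ℕ} {c : Z.Cycles}
    (hc : Z.IsCyc p c) (hq : Y.dim + p = q + Z.dim) : Y.IsCyc q (coact ops γ c) := by
  refine ops.push_mem (fst Y Z) (ops.mul_mem hγ (ops.pull_mem (snd Y Z) hc)) ?_
  rw [dim_prod]
  omega

/-- adjunction -/
theorem adj {γ : (Y.prod Z).Cycles} {p : ℕ} {c : Z.Cycles}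
    (hc : Z.IsCyc p c) (h : W.H Y) :
    W.tr Z (W.corr (W.cl _ γ) h * W.cl Z c) = W.tr Y (W.cl Y (coact ops γ c) * h) := by
  rw [corr_apply, W.tr_push, coact, W.cl_push, W.cl_mul, W.cl_pull, W.tr_push, mul_assoc,
    mul_assoc]
  congr 2
  exact (W.even_comm (W.map_mem (snd Y Z) (W.cl_mem hc)) _).symm

/-- the cycles of codimension `p` -/
noncomputable def cyc (X : 𝒱.Obj) (p : ℕ) : Submodule ℚ X.Cycles where
  carrier := {z | X.IsCyc p z}
  zero_mem' := SmVar.IsCyc.zero _ _
  add_mem' ha hb := SmVar.IsCyc.add ha hb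
  smul_mem' q _ hz := SmVar.IsCyc.smul q hz

/-- intersection numbers in cohomology -/
theorem deg_mul {p q : ℕ} {z w : X.Cycles} (hz : X.IsCyc p z) (hw : X.IsCyc q w)
    (h : p + q = X.dim) : ((X.V.degCycle (ops.mul z w) : ℚ) : W.K) =
      W.tr X (W.cl X z * W.cl X w) := (tr_mul_cl hz hw h).symm

end Cyc

variable {k : Type u} [Field k] {𝒱 : VarClass k} {ops : CycleOps 𝒱}
  {k₀ : Type u₀} [Field k₀] {𝒱₀ : VarClass k₀} {ops₀ : CycleOps 𝒱₀}
  {W : WeilCohomology.{u, v} ops} {W₀ : WeilCohomology.{u₀, v₀} ops₀} {X : 𝒱.Obj}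
  {X₀ Y : 𝒱₀.Obj}

theorem corr_proj {X : 𝒱.Obj} {i : ℕ} {P : (X.prod X).Cycles} (h : InducesProjector W X i P) :
    W.corr (W.cl _ P) = proj (W.isInternal X) i := isProjTo_iff.1 h

theorem inv_proj (F : Family W W₀ X X₀ Y) (i : ℕ) :
    IsInvariant (W₀.gr X₀) F.mono (proj (W₀.isInternal X₀) i) := by
  refine ⟨?_, ?_⟩
  · intro j a ha
    by_cases hj : j = i
    · subst hj
      rw [proj_same _ ha]
      exact ha
    · rw [proj_ne _ ha hj]
      exact Submodule.zero_mem _
  · intro g hg a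
    have h1 : proj (W₀.isInternal X₀) i * g = g * proj (W₀.isInternal X₀) i := by
      apply gr_ext (W₀.isInternal X₀)
      intro j a ha
      have h2 := F.mono_mem g hg j a ha
      rw [Module.End.mul_apply, Module.End.mul_apply]
      by_cases hj : j = i
      · subst hj
        rw [proj_same _ ha, proj_same _ h2]
      · rw [proj_ne _ ha hj, proj_ne _ h2 hj, map_zero]
    exact congrArg (fun G => G a) h1

/-- intersection numbers of the restriction and of the image -/
theorem deg_act (F : Family W W₀ X X₀ Y) {z : Y.Cycles} (hz : Y.IsCyc X₀.dim z)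
    {c : (X₀.prod X₀).Cycles} (hc : (X₀.prod X₀).IsCyc X₀.dim c) :
    (X₀.prod X₀).V.degCycle (ops₀.mul (act ops₀ F.γ z) c) =
      Y.V.degCycle (ops₀.mul (coact ops₀ F.γ c) z) := by
  have h1 : ((X₀.prod X₀).V.degCycle (ops₀.mul (act ops₀ F.γ z) c) : W₀.K) =
      (Y.V.degCycle (ops₀.mul (coact ops₀ F.γ c) z) : W₀.K) := by
    have hle := F.le
    rw [deg_mul (W := W₀) (act_mem F.γ_mem hz) hc (by rw [dim_prod]), cl_act, adj hc,
      deg_mul (W := W₀) (coact_mem F.γ_mem hc (q := Y.dim - X₀.dim) (by rw [dim_prod]; omega)) hz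
        (by omega)]
  exact_mod_cast h1

/-- `C(X₀)` and the extension of the Kunneth components give `C(X)`. -/
theorem of_extends (F : Family W W₀ X X₀ Y) (hC : KunnethStd W₀ X₀) (hE : Extends F) :
    KunnethStd W X := by
  have hOA := rop_opAlg (W := W) (X := X)
  have hOA₀ := rop_opAlg (W := W₀) (X := X₀)
  have h₀ := W₀.isInternal X₀
  apply kunneth_of_rop
  intro i
  obtain ⟨P, hP, hPi⟩ := hC i
  obtain ⟨z, hz, hnum⟩ := hE i P ⟨hP, hPi⟩
  have hzm := act_mem (ops := ops₀) F.γ_mem hz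
  have h1 : NumRep W₀ (X₀.prod X₀) X₀.dim (act ops₀ F.γ z) (W₀.cl _ P) := by
    intro c hc
    have h2 : (X₀.prod X₀).V.degCycle (ops₀.mul (act ops₀ F.γ z) c) =
        (X₀.prod X₀).V.degCycle (ops₀.mul P c) := hnum c hc
    rw [h2, deg_mul (W := W₀) hP hc (by rw [dim_prod])]
    rfl
  rw [numRep_iff hzm (W₀.cl_mem hP), corr_proj hPi] at h1
  have hpar : ROp W₀ X₀ 0 (par (W₀.isInternal X₀)) := by
    have h2 : par (W₀.isInternal X₀) = ∑ j ∈ Finset.range (2 * X₀.dim + 1),
        (((-1 : ℚ) ^ j : ℚ) : W₀.K) • proj (W₀.isInternal X₀) j := by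
      rw [par, scal_eq_sum (W₀.isInternal X₀) W_hbd]
      apply Finset.sum_congr rfl
      intro j _
      push_cast
      rfl
    rw [h2]
    exact hOA₀.sum fun j _ => hOA₀.smul _ (kunneth_rop hC j)
  obtain ⟨g, hg⟩ := poly_of_num hOA₀ (W₀.isInternal X₀) hpar (rop_corr (by simp) hzm)
    (kunneth_rop hC i) h1
  obtain ⟨w, hw, hm⟩ := F.generic z hz
  have hm' : Matches F.e (W.corr (W.cl (X.prod X) w))
      (W₀.corr (W₀.cl (X₀.prod X₀) (act ops₀ F.γ z))) := hm
  have hm2 := Matches.ev F.iso.semi hm' g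
  have h3 : proj (W.isInternal X) i = ev (W.corr (W.cl _ w)) g := by
    apply gr_ext (W.isInternal X)
    intro j a ha
    apply F.e.injective
    rw [hm2, ← hg]
    have ha' := (F.iso.gr j a).2 ha
    by_cases hj : j = i
    · subst hj
      rw [proj_same _ ha, proj_same _ ha']
    · rw [proj_ne _ ha hj, proj_ne _ ha' hj, map_zero]
  rw [h3]
  exact hOA.ev (rop_corr (by simp) hw) g

/-- `C(X)` gives cycles on `Y`. -/
theorem exists_of_kunneth (F : Family W W₀ X X₀ Y) (hC : KunnethStd W X) (i : ℕ) :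
    ∃ z, Y.IsCyc X₀.dim z ∧
      W₀.corr (W₀.cl (X₀.prod X₀) (act ops₀ F.γ z)) = proj (W₀.isInternal X₀) i := by
  obtain ⟨w, hw, hwi⟩ := hC i
  refine F.descent w hw _ (inv_proj F i) ?_
  have h1 := corr_proj hwi
  change Matches F.e (W.corr (W.cl (X.prod X) w)) _
  rw [h1]
  intro a
  have h2 : ∀ a : W.H X, F.e (proj (W.isInternal X) i a) = proj (W₀.isInternal X₀) i (F.e a) := by
    intro a
    have h3 : a ∈ (⊤ : Submodule W.K (W.H X)) := Submodule.mem_top
    rw [← (W.isInternal X).submodule_iSup_eq_top] at h3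
    induction h3 using Submodule.iSup_induction' with
    | mem j a ha =>
      have ha' := (F.iso.gr j a).2 ha
      by_cases hj : j = i
      · subst hj
        rw [proj_same _ ha, proj_same _ ha']
      · rw [proj_ne _ ha hj, proj_ne _ ha' hj, map_zero]
    | zero => rw [map_zero, map_zero, map_zero]
    | add x y _ _ hx hy => rw [map_add, map_add, map_add, map_add, hx, hy]
  exact h2 a

theorem kunneth_fibre (F : Family W W₀ X X₀ Y) (hC : KunnethStd W X) : KunnethStd W₀ X₀ := by
  apply kunneth_of_rop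
  intro i
  obtain ⟨z, hz, hzi⟩ := exists_of_kunneth F hC i
  rw [← hzi]
  exact rop_corr (by simp) (act_mem F.γ_mem hz)

theorem extends_of_kunneth (F : Family W W₀ X X₀ Y) (hC : KunnethStd W X) : Extends F := by
  rintro i P ⟨hP, hPi⟩
  obtain ⟨z, hz, hzi⟩ := exists_of_kunneth F hC i
  refine ⟨z, hz, fun c hc => ?_⟩
  have h1 : W₀.cl (X₀.prod X₀) (act ops₀ F.γ z) = W₀.cl _ P := by
    have h2 : W₀.corr (W₀.cl (X₀.prod X₀) (act ops₀ F.γ z) - W₀.cl _ P) = 0 := by
      have h3 : ∀ x y : W₀.H (X₀.prod X₀), W₀.corr (x - y) = W₀.corr x - W₀.corr y := by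
        intro x y
        rw [eq_sub_iff_add_eq, ← corr_add, sub_add_cancel]
      rw [h3, hzi, corr_proj hPi, sub_self]
    exact sub_eq_zero.1 (corr_inj h2)
  change (X₀.prod X₀).V.degCycle (ops₀.mul (act ops₀ F.γ z) c) =
    (X₀.prod X₀).V.degCycle (ops₀.mul P c)
  have h4 : ((X₀.prod X₀).V.degCycle (ops₀.mul (act ops₀ F.γ z) c) : W₀.K) =
      ((X₀.prod X₀).V.degCycle (ops₀.mul P c) : W₀.K) := by
    rw [deg_mul (W := W₀) (act_mem F.γ_mem hz) hc (by rw [dim_prod]),
      deg_mul (W := W₀) hP hc (by rw [dim_prod]), h1]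
  exact_mod_cast h4

/-- The extension of the Kunneth components is equivalent to the orthogonality. -/
theorem extends_iff_orthogonal (F : Family W W₀ X X₀ Y) : Extends F ↔ Orthogonal F := by
  constructor
  · rintro hE c hc hnum i P ⟨hP, hPi⟩
    obtain ⟨z, hz, h⟩ := hE i P ⟨hP, hPi⟩
    rw [← h c hc]
    refine (deg_act F hz hc).trans ?_
    exact hnum z hz
  · rintro hO i P ⟨hP, hPi⟩
    have hdim : X₀.dim + X₀.dim = (X₀.prod X₀).dim := by rw [dim_prod]
    have hcl : ∀ (p q : Y.Cycles), W₀.cl (X₀.prod X₀) (act ops₀ F.γ (p + q)) =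
        W₀.cl _ (act ops₀ F.γ p) + W₀.cl _ (act ops₀ F.γ q) := by
      intro p q
      rw [cl_act, cl_act, cl_act, map_add, map_add]
    have hcs : ∀ (r : ℚ) (p : Y.Cycles), W₀.cl (X₀.prod X₀) (act ops₀ F.γ (r • p)) =
        (r : W₀.K) • W₀.cl _ (act ops₀ F.γ p) := by
      intro r p
      rw [cl_act, cl_act, cl_smul, map_smul]
    let β : cyc Y X₀.dim →ₗ[ℚ] cyc (X₀.prod X₀) X₀.dim →ₗ[ℚ] ℚ :=
      LinearMap.mk₂ ℚ (fun z c => (X₀.prod X₀).V.degCycle (ops₀.mul (act ops₀ F.γ z.1) c.1))
        (by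
          intro m₁ m₂ c
          apply Rat.cast_injective (α := W₀.K)
          rw [Rat.cast_add, deg_mul (W := W₀) (act_mem F.γ_mem (m₁ + m₂).2) c.2 hdim,
            deg_mul (W := W₀) (act_mem F.γ_mem m₁.2) c.2 hdim,
            deg_mul (W := W₀) (act_mem F.γ_mem m₂.2) c.2 hdim, ← map_add, ← add_mul, ← hcl]
          rfl)
        (by
          intro r m c
          apply Rat.cast_injective (α := W₀.K)
          rw [smul_eq_mul, Rat.cast_mul, deg_mul (W := W₀) (act_mem F.γ_mem (r • m).2) c.2 hdim,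
            deg_mul (W := W₀) (act_mem F.γ_mem m.2) c.2 hdim, Submodule.coe_smul, hcs,
            smul_mul_assoc, map_smul, smul_eq_mul])
        (by
          intro m c₁ c₂
          apply Rat.cast_injective (α := W₀.K)
          rw [Rat.cast_add, deg_mul (W := W₀) (act_mem F.γ_mem m.2) (c₁ + c₂).2 hdim,
            deg_mul (W := W₀) (act_mem F.γ_mem m.2) c₁.2 hdim,
            deg_mul (W := W₀) (act_mem F.γ_mem m.2) c₂.2 hdim, ← map_add, ← mul_add, ← map_add]
          rfl)
        (by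
          intro r m c
          apply Rat.cast_injective (α := W₀.K)
          rw [smul_eq_mul, Rat.cast_mul, deg_mul (W := W₀) (act_mem F.γ_mem m.2) (r • c).2 hdim,
            deg_mul (W := W₀) (act_mem F.γ_mem m.2) c.2 hdim, Submodule.coe_smul, cl_smul,
            mul_smul_comm, map_smul, smul_eq_mul])
    let φ : cyc (X₀.prod X₀) X₀.dim →ₗ[ℚ] ℚ :=
      { toFun := fun c => (X₀.prod X₀).V.degCycle (ops₀.mul P c.1)
        map_add' := by
          intro c₁ c₂
          apply Rat.cast_injective (α := W₀.K)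
          rw [Rat.cast_add, deg_mul (W := W₀) hP (c₁ + c₂).2 hdim, deg_mul (W := W₀) hP c₁.2 hdim,
            deg_mul (W := W₀) hP c₂.2 hdim, ← map_add, ← mul_add, ← map_add]
          rfl
        map_smul' := by
          intro r c
          apply Rat.cast_injective (α := W₀.K)
          rw [RingHom.id_apply, smul_eq_mul, Rat.cast_mul, deg_mul (W := W₀) hP (r • c).2 hdim,
            deg_mul (W := W₀) hP c.2 hdim, Submodule.coe_smul, cl_smul,
            mul_smul_comm, map_smul, smul_eq_mul] }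
    obtain ⟨z, hz⟩ := exists_eq_of_orth (bil W₀ (X₀.prod X₀))
      (fun z : cyc Y X₀.dim => W₀.cl _ (act ops₀ F.γ z.1))
      (fun c : cyc (X₀.prod X₀) X₀.dim => W₀.cl _ c.1) β
      (fun z c => deg_mul (W := W₀) (act_mem F.γ_mem z.2) c.2 hdim) φ (by
        intro c hc
        refine hO c.1 c.2 (fun z hz => ?_) i P ⟨hP, hPi⟩
        exact (deg_act F hz c.2).symm.trans (hc ⟨z, hz⟩))
    exact ⟨z.1, z.2, fun c hc => congrArg (fun ψ => ψ ⟨c, hc⟩) hz⟩

/-- The conjecture D for the cycles on `Y` gives the orthogonality. -/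
theorem orthogonal_of_homEqNum (F : Family W W₀ X X₀ Y) (hD : HomEqNumOnFibre F) :
    Orthogonal F := by
  rintro c hc hnum i P ⟨hP, hPi⟩
  have h1 : W₀.cl Y (coact ops₀ F.γ c) = 0 := hD c hc hnum
  obtain ⟨h, -, hh'⟩ := F.fixed _ (inv_proj F i)
  have hh : W₀.corr (W₀.corr (W₀.cl (Y.prod (X₀.prod X₀)) F.γ) h) =
      proj (W₀.isInternal X₀) i := hh'
  have h2 : W₀.cl (X₀.prod X₀) P = W₀.corr (W₀.cl _ F.γ) h := by
    have h3 : W₀.corr (W₀.cl (X₀.prod X₀) P - W₀.corr (W₀.cl _ F.γ) h) = 0 := by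
      have h3 : ∀ x y : W₀.H (X₀.prod X₀), W₀.corr (x - y) = W₀.corr x - W₀.corr y := by
        intro x y
        rw [eq_sub_iff_add_eq, ← corr_add, sub_add_cancel]
      rw [h3, hh, corr_proj hPi, sub_self]
    exact sub_eq_zero.1 (corr_inj h3)
  change (X₀.prod X₀).V.degCycle (ops₀.mul P c) = 0
  have h4 : ((X₀.prod X₀).V.degCycle (ops₀.mul P c) : W₀.K) = 0 := by
    rw [deg_mul (W := W₀) hP hc (by rw [dim_prod]), h2, adj hc, h1, zero_mul, map_zero]
  exact_mod_cast h4

theorem onFibre_of_homEqNum (F : Family W W₀ X X₀ Y) (hD : HomEqNum W₀ Y) :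
    HomEqNumOnFibre F := by
  intro c hc hnum
  have hle := F.le
  refine hD (Y.dim - X₀.dim) (by omega) _ (coact_mem F.γ_mem hc (by rw [dim_prod]; omega)) ?_
  intro z hz
  rw [show Y.dim - (Y.dim - X₀.dim) = X₀.dim by omega] at hz
  exact hnum z hz

end Pool.Agent.Q26.KF
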