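import Pool.Agent.H914R2.DDefs

/-!
# The Kunneth components in families: definitions
-/

open CategoryTheory AlgebraicGeometry

universe u v u₀ v₀

namespace Pool.Agent.Q26.KF

open Pool.Agent.H914 Pool.Agent.H914.VarClass Pool.Agent.H914.VarClass.Obj
  Pool.Agent.H914.WeilCohomology

section Alg

variable {K L A B : Type*} [Field K] [Field L] [AddCommGroup A] [Module K A] [AddCommGroup B]
  [Module L B]

/-- The isomorphism `e` is semilinear for the isomorphism `s` of the coefficients and preserves the
degrees. -/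
structure IsGradedIso (s : K ≃+* L) (e : A ≃+ B) (gr : ℕ → Submodule K A)
    (gr' : ℕ → Submodule L B) : Prop where
  semi : ∀ (r : K) (a : A), e (r • a) = s r • e a
  gr : ∀ (i : ℕ) (a : A), e a ∈ gr' i ↔ a ∈ gr i

/-- The operators `f` and `f'` correspond to each other under the isomorphism `e`. -/
def Matches (e : A ≃+ B) (f : A →ₗ[K] A) (f' : B →ₗ[L] B) : Prop := ∀ a, e (f a) = f' (e a)

/-- The operator `f` preserves the degrees. -/
def PreservesDegrees (gr' : ℕ → Submodule L B) (f : B →ₗ[L] B) : Prop :=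
  ∀ i, ∀ a ∈ gr' i, f a ∈ gr' i

/-- The operator `f` preserves the degrees and commutes with all operators in `M`. -/
def IsInvariant (gr' : ℕ → Submodule L B) (M : Set (B →ₗ[L] B)) (f : B →ₗ[L] B) : Prop :=
  PreservesDegrees gr' f ∧ ∀ g ∈ M, ∀ a, f (g a) = g (f a)

end Alg

section Cyc

variable {k : Type u} [Field k] {𝒱 : VarClass k}

/-- The action of a cycle `γ` on `Y × Z` on the cycles on `Y`: the push-forward to `Z` of the
product of `γ` with the pull-back of `z`. -/
noncomputable def act (ops : CycleOps 𝒱) {Y Z : 𝒱.Obj} (γ : (Y.prod Z).Cycles) (z : Y.Cycles) :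
    Z.Cycles :=
  ops.push (snd Y Z) (ops.mul γ (ops.pull (fst Y Z) z))

/-- The action of the transpose of a cycle `γ` on `Y × Z` on the cycles on `Z`. -/
noncomputable def coact (ops : CycleOps 𝒱) {Y Z : 𝒱.Obj} (γ : (Y.prod Z).Cycles) (c : Z.Cycles) :
    Y.Cycles :=
  ops.push (fst Y Z) (ops.mul γ (ops.pull (snd Y Z) c))

end Cyc

variable {k : Type u} [Field k] {𝒱 : VarClass k} {ops : CycleOps 𝒱}
  {k₀ : Type u₀} [Field k₀] {𝒱₀ : VarClass k₀} {ops₀ : CycleOps 𝒱₀}

/-- The operator on `H(X)` given by a cycle on `X × X`. -/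
noncomputable def op (W : WeilCohomology.{u, v} ops) (X : 𝒱.Obj) (w : (X.prod X).Cycles) :
    W.H X →ₗ[W.K] W.H X :=
  W.corr (W.cl (X.prod X) w)

/-- The data of a family, see `Family`: the isomorphism `s` of the coefficients, the specialization
`e` in cohomology, the cycle `γ` which gives the restriction from `Y` to the fibre `X₀ × X₀`, and
the monodromy operators `mono` on `H(X₀)`. -/
structure FamilyData (W : WeilCohomology.{u, v} ops) (W₀ : WeilCohomology.{u₀, v₀} ops₀) (X : 𝒱.Obj)
    (X₀ Y : 𝒱₀.Obj) where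
  /-- the isomorphism of the coefficients -/
  s : W.K ≃+* W₀.K
  /-- the specialization in cohomology -/
  e : W.H X ≃+ W₀.H X₀
  /-- the restriction to the fibre -/
  γ : (Y.prod (X₀.prod X₀)).Cycles
  /-- the monodromy operators -/
  mono : Set (W₀.H X₀ →ₗ[W₀.K] W₀.H X₀)

section Data

variable {W : WeilCohomology.{u, v} ops} {W₀ : WeilCohomology.{u₀, v₀} ops₀} {X : 𝒱.Obj}
  {X₀ Y : 𝒱₀.Obj}

/-- The restriction of the cycle `z` on `Y` to `X₀ × X₀`. -/
noncomputable def FamilyData.res (F : FamilyData W W₀ X X₀ Y) (z : Y.Cycles) :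
    (X₀.prod X₀).Cycles := act ops₀ F.γ z

/-- The image in `Y` of the cycle `c` on `X₀ × X₀`. -/
noncomputable def FamilyData.im (F : FamilyData W W₀ X X₀ Y) (c : (X₀.prod X₀).Cycles) :
    Y.Cycles := coact ops₀ F.γ c

/-- The restriction of the class `h` on `Y` to `X₀ × X₀`. -/
noncomputable def FamilyData.resH (F : FamilyData W W₀ X X₀ Y) (h : W₀.H Y) : W₀.H (X₀.prod X₀) :=
  W₀.corr (W₀.cl (Y.prod (X₀.prod X₀)) F.γ) h

/-- The operator `f` on `H(X₀)` preserves the degrees and commutes with the monodromy. -/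
def FamilyData.Inv (F : FamilyData W W₀ X X₀ Y) (f : W₀.H X₀ →ₗ[W₀.K] W₀.H X₀) : Prop :=
  IsInvariant (W₀.gr X₀) F.mono f

/-- The operator on `H(X)` given by the cycle `w` corresponds to the operator `f` on `H(X₀)`. -/
def FamilyData.Gives (F : FamilyData W W₀ X X₀ Y) (w : (X.prod X).Cycles)
    (f : W₀.H X₀ →ₗ[W₀.K] W₀.H X₀) : Prop := Matches F.e (op W X w) f

/-- A cycle `z` on `Y` gives a cycle on `X × X` whose operator is that of the restriction of `z` to
`X₀ × X₀`. -/
def FamilyData.Generic (F : FamilyData W W₀ X X₀ Y) : Prop :=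
  ∀ z, Y.IsCyc X₀.dim z → ∃ w, (X.prod X).IsCyc X.dim w ∧ F.Gives w (op W₀ X₀ (F.res z))

/-- If the operator of a cycle `w` on `X × X` is invariant under the fundamental group, then the
same operator is given by a cycle on `Y`. -/
def FamilyData.Descent (F : FamilyData W W₀ X X₀ Y) : Prop :=
  ∀ w, (X.prod X).IsCyc X.dim w → ∀ f, F.Inv f → F.Gives w f →
    ∃ z, Y.IsCyc X₀.dim z ∧ op W₀ X₀ (F.res z) = f

/-- The theorem of Deligne on the fixed part: the invariant operators are given by restrictions of
classes on `Y`. -/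
def FamilyData.Fixed (F : FamilyData W W₀ X X₀ Y) : Prop :=
  ∀ f, F.Inv f → ∃ h ∈ W₀.gr Y (2 * X₀.dim), W₀.corr (F.resH h) = f

end Data

/-- A smooth projective family over a smooth connected variety `S` over the algebraically closed
field `k₀`, with geometric generic fibre `X` over the field `k`, the fibre `X₀` over a point of
`S`, and a smooth projective variety `Y` over `k₀` which is generically finite over a
compactification of the fibre square of the family. The isomorphism `e` is given by the
specialization from `X` to `X₀`. The cycle `γ` on `Y × (X₀ × X₀)` gives the restriction from `Y` to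
the fibre `X₀ × X₀` (for `Y` not birational to the fibre square: the push-forward to the fibre
square, followed by the restriction to the fibre). The set `mono` consists of the operators of
the fundamental group of `S` on `H(X₀)`.

`generic`: a cycle on `Y` gives a cycle on `X × X` whose specialization is the restriction of the
cycle to `X₀ × X₀`. `descent`: the cycle `w` is defined over a finite extension of the function
field of `S`; take the trace and the closure. `fixed`: the theorem of Deligne on the fixed part. -/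
structure Family (W : WeilCohomology.{u, v} ops) (W₀ : WeilCohomology.{u₀, v₀} ops₀) (X : 𝒱.Obj)
    (X₀ Y : 𝒱₀.Obj) extends FamilyData W W₀ X X₀ Y where
  iso : IsGradedIso s e (W.gr X) (W₀.gr X₀)
  dim : X₀.dim = X.dim
  le : X₀.dim ≤ Y.dim
  γ_mem : (Y.prod (X₀.prod X₀)).IsCyc Y.dim γ
  mono_mem : ∀ g ∈ mono, PreservesDegrees (W₀.gr X₀) g
  generic : toFamilyData.Generic
  descent : toFamilyData.Descent
  fixed : toFamilyData.Fixed

variable {W : WeilCohomology.{u, v} ops} {W₀ : WeilCohomology.{u₀, v₀} ops₀} {X : 𝒱.Obj}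
  {X₀ Y : 𝒱₀.Obj}

/-- The cycle `P` on `X₀ × X₀` gives the `i`-th Kunneth component of `X₀`: it induces the projector
of `H(X₀)` onto `H^i(X₀)`. -/
def IsKunneth (W : WeilCohomology.{u, v} ops) (X : 𝒱.Obj) (i : ℕ) (P : (X.prod X).Cycles) : Prop :=
  (X.prod X).IsCyc X.dim P ∧ InducesProjector W X i P

/-- The intersection number of the cycles `a` and `b` of complementary codimensions. -/
noncomputable def deg (ops : CycleOps 𝒱) (X : 𝒱.Obj) (a b : X.Cycles) : ℚ :=
  X.V.degCycle (ops.mul a b)

/-- For every cycle `P` on `X₀ × X₀` which induces the projector of `H(X₀)` onto some `H^i(X₀)` there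
is a cycle on `Y` whose restriction to `X₀ × X₀` is numerically equivalent to `P`. -/
def Extends (F : Family W W₀ X X₀ Y) : Prop :=
  ∀ i P, IsKunneth W₀ X₀ i P → ∃ z, Y.IsCyc X₀.dim z ∧
    ∀ c, (X₀.prod X₀).IsCyc X₀.dim c → deg ops₀ (X₀.prod X₀) (F.res z) c = deg ops₀ (X₀.prod X₀) P c

/-- The image in `Y` of the cycle `c` on `X₀ × X₀` is numerically trivial. -/
def NumTrivialOn (F : Family W W₀ X X₀ Y) (c : (X₀.prod X₀).Cycles) : Prop :=
  ∀ z, Y.IsCyc X₀.dim z → deg ops₀ Y (F.im c) z = 0

/-- The intersection numbers of the cycles `P` on `X₀ × X₀` which induce the projectors of `H(X₀)`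
onto the subspaces `H^i(X₀)` with all cycles on `X₀ × X₀` whose images in `Y` are numerically
trivial are zero. -/
def Orthogonal (F : Family W W₀ X X₀ Y) : Prop :=
  ∀ c, (X₀.prod X₀).IsCyc X₀.dim c → NumTrivialOn F c →
    ∀ i P, IsKunneth W₀ X₀ i P → deg ops₀ (X₀.prod X₀) P c = 0

/-- Numerical and homological equivalence agree for the cycles on `Y` which are images of cycles of
dimension `dim X₀` on the fibre `X₀ × X₀`. -/
def HomEqNumOnFibre (F : Family W W₀ X X₀ Y) : Prop :=
  ∀ c, (X₀.prod X₀).IsCyc X₀.dim c → NumTrivialOn F c → W₀.cl Y (F.im c) = 0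

end Pool.Agent.Q26.KF
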